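import Pool.Agent.MWS.StmtsB

/-! # Row BFR of squad MWS -/

set_option autoImplicit false

namespace Pool.Agent.MWS.H22

/-- `Bef l x y` fails iff `[y, x]` is a sublist of `l` -/
theorem bef_iff (l : List ℕ) (x y : ℕ) : Bef l x y ↔ ¬ [y, x].Sublist l := by
  constructor
  · intro h hs
    rw [List.cons_sublist_iff] at hs
    obtain ⟨r1, r2, rfl, h1, h2⟩ := hs
    obtain ⟨P, Q, rfl⟩ := List.append_of_mem h1
    rw [List.singleton_sublist] at h2
    exact h P (Q ++ r2) (by simp) (List.mem_append_right _ h2)
  · rintro h P Q rfl hx
    refine h ?_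
    rw [List.cons_sublist_iff]
    exact ⟨P ++ [y], Q, by simp, by simp, List.singleton_sublist.2 hx⟩

theorem bfr : BfrStmt := by
  refine ⟨fun l p x y hx hy => ?_, fun l f x y hfx hfy hx hy => ?_⟩
  · rw [bef_iff, bef_iff, not_iff_not]
    constructor
    · intro h
      exact h.trans List.filter_sublist
    · intro h
      have h1 := h.filter p
      have h2 : List.filter p [y, x] = [y, x] := by
        simp [hx, hy]
      rwa [h2] at h1
  · rw [bef_iff, bef_iff, not_iff_not]
    constructor
    · intro h
      obtain ⟨l', h1, h2⟩ := List.sublist_map_iff.1 h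
      match l', h1, h2 with
      | [], _, h2 => exact absurd h2 (by simp)
      | [_], _, h2 => exact absurd h2 (by simp)
      | _ :: _ :: _ :: _, _, h2 => exact absurd h2 (by simp)
      | [c, d], h1, h2 =>
        simp only [List.map_cons, List.map_nil, List.cons.injEq, and_true] at h2
        have hc : c = y := hfy c (h1.subset (by simp)) h2.1.symm
        have hd : d = x := hfx d (h1.subset (by simp)) h2.2.symm
        rwa [hc, hd] at h1
    · intro h
      exact h.map f

end Pool.Agent.MWS.H22
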